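import Mathlib

set_option autoImplicit false

/-!
# Several complex variables (module O of helper96's project MP_661876_ag)
-/

namespace Pool.Agent.helper96.Zd

open Metric Set Filter Topology
open scoped ContDiff

namespace OM

/-- joint continuity gives locally uniform convergence in the second variable -/
theorem tlu {α : Type*} [TopologicalSpace α] {s : Set α} {U : Set ℂ} (hU : IsOpen U)
    {F : α → ℂ → ℂ} (hF : ContinuousOn (Function.uncurry F) (s ×ˢ U)) {a : α} (ha : a ∈ s) :
    TendstoLocallyUniformlyOn F (F a) (𝓝[s] a) U := by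
  rw [tendstoLocallyUniformlyOn_iff_forall_isCompact hU]
  intro K hKU hK u hu
  obtain ⟨v, hv, h⟩ := hK.mem_uniformity_of_prod (s := s) (f := F)
    (hF.mono (prod_mono_right hKU)) ha (tendsto_swap_uniformity hu)
  filter_upwards [hv] with p hp x hx
  exact h p hp x hx

theorem continuousWithinAt_deriv {α : Type*} [TopologicalSpace α] {s : Set α} {U : Set ℂ}
    (hU : IsOpen U) {F : α → ℂ → ℂ} (hF : ContinuousOn (Function.uncurry F) (s ×ˢ U))
    (hd : ∀ b ∈ s, DifferentiableOn ℂ (F b) U) {a : α} (ha : a ∈ s) {z : ℂ} (hz : z ∈ U) :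
    ContinuousWithinAt (fun b => deriv (F b) z) s a := by
  have h2 := (tlu hU hF ha).deriv (eventually_of_mem self_mem_nhdsWithin hd) hU
  exact h2.tendsto_at hz

variable {E : Type*} [NormedAddCommGroup E] [NormedSpace ℂ E]

theorem diffAt_line {U : Set E} {f : E → ℂ}
    (hl : ∀ x ∈ U, ∀ v : E, DifferentiableAt ℂ (fun z : ℂ => f (x + z • v)) 0)
    {x v : E} {z : ℂ} (h : x + z • v ∈ U) : DifferentiableAt ℂ (fun w : ℂ => f (x + w • v)) z := by
  have h1 := hl _ h v
  have h2 : (fun w : ℂ => f (x + w • v)) = (fun w : ℂ => f (x + z • v + w • v)) ∘ fun w => w - z := by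
    funext w
    simp only [Function.comp]
    congr 1
    rw [sub_smul]
    abel
  rw [h2]
  refine DifferentiableAt.comp z ?_ (by fun_prop)
  simpa using h1

/-- directional derivative -/
noncomputable def D (f : E → ℂ) (x v : E) : ℂ := deriv (fun z : ℂ => f (x + z • v)) 0

theorem hasDerivAt_line {U : Set E} {f : E → ℂ}
    (hl : ∀ x ∈ U, ∀ v : E, DifferentiableAt ℂ (fun z : ℂ => f (x + z • v)) 0)
    {x v : E} {z : ℂ} (h : x + z • v ∈ U) :
    HasDerivAt (fun w : ℂ => f (x + w • v)) (D f (x + z • v) v) z := by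
  have h1 := (hl _ h v).hasDerivAt
  have h2 : (fun w : ℂ => f (x + w • v)) = (fun w : ℂ => f (x + z • v + w • v)) ∘ fun w => w - z := by
    funext w
    simp only [Function.comp]
    congr 1
    rw [sub_smul]
    abel
  rw [h2]
  have h3 : HasDerivAt (fun w : ℂ => f (x + z • v + w • v)) (D f (x + z • v) v) (z - z) := by
    rw [sub_self]; exact h1
  have h4 := HasDerivAt.comp (h := fun w : ℂ => w - z) z h3 ((hasDerivAt_id' z).sub_const z)
  simpa using h4

theorem continuousAt_D {U : Set E} (hU : IsOpen U) {f : E → ℂ} (hc : ContinuousOn f U)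
    (hl : ∀ x ∈ U, ∀ v : E, DifferentiableAt ℂ (fun z : ℂ => f (x + z • v)) 0)
    {x v : E} (hx : x ∈ U) : ContinuousAt (fun p : E × E => D f p.1 p.2) (x, v) := by
  -- a product neighbourhood
  have hcont : Continuous fun q : (E × E) × ℂ => q.1.1 + q.2 • q.1.2 := by fun_prop
  have hopen : IsOpen ((fun q : (E × E) × ℂ => q.1.1 + q.2 • q.1.2) ⁻¹' U) := hU.preimage hcont
  have hmem : (((x, v), 0) : (E × E) × ℂ) ∈ (fun q : (E × E) × ℂ => q.1.1 + q.2 • q.1.2) ⁻¹' U := by
    simpa using hx
  obtain ⟨S, W, hS, hW, hxS, h0W, hsub⟩ := isOpen_prod_iff.1 hopen (x, v) 0 hmem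
  have hFc : ContinuousOn (Function.uncurry fun (p : E × E) (z : ℂ) => f (p.1 + z • p.2))
      (S ×ˢ W) := hc.comp hcont.continuousOn fun q hq => hsub hq
  have h1 := continuousWithinAt_deriv hW hFc (fun b hb z hz =>
    (diffAt_line hl (hsub (mk_mem_prod hb hz))).differentiableWithinAt) hxS h0W
  exact h1.continuousAt (hS.mem_nhds hxS)

theorem D_add {U : Set E} (hU : IsOpen U) {f : E → ℂ} (hc : ContinuousOn f U)
    (hl : ∀ x ∈ U, ∀ v : E, DifferentiableAt ℂ (fun z : ℂ => f (x + z • v)) 0)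
    {x : E} (hx : x ∈ U) (v w : E) : D f x (v + w) = D f x v + D f x w := by
  let G : ℂ → ℂ → ℂ := fun s t => f (x + s • v + t • w)
  let f₁ : ℂ → ℂ → ℂ →L[ℂ] ℂ := fun s t =>
    ContinuousLinearMap.toSpanSingleton ℂ (D f (x + s • v + t • w) v)
  let f₂ : ℂ → ℂ → ℂ →L[ℂ] ℂ := fun s t =>
    ContinuousLinearMap.toSpanSingleton ℂ (D f (x + s • v + t • w) w)
  have hcont : Continuous fun q : ℂ × ℂ => x + q.1 • v + q.2 • w := by fun_prop
  have hev : ∀ᶠ q : ℂ × ℂ in 𝓝 ((0 : ℂ), (0 : ℂ)), x + q.1 • v + q.2 • w ∈ U := by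
    refine hcont.continuousAt.eventually (p := fun y => y ∈ U) ?_
    refine hU.mem_nhds ?_
    simpa using hx
  have hD : ∀ u : E, ContinuousAt (fun q : ℂ × ℂ => D f (x + q.1 • v + q.2 • w) u) (0, 0) := by
    intro u
    have h1 : ContinuousAt (fun p : E × E => D f p.1 p.2) (x + (0 : ℂ) • v + (0 : ℂ) • w, u) :=
      continuousAt_D hU hc hl (by simpa using hx)
    have h2 : ContinuousAt (fun q : ℂ × ℂ => (x + q.1 • v + q.2 • w, u)) (0, 0) :=
      (by fun_prop : Continuous fun q : ℂ × ℂ => (x + q.1 • v + q.2 • w, u)).continuousAt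
    exact ContinuousAt.comp (f := fun q : ℂ × ℂ => (x + q.1 • v + q.2 • w, u)) h1 h2
  have key : HasStrictFDerivAt (Function.uncurry G)
      ((Function.uncurry f₁ (0, 0)).coprod (Function.uncurry f₂ (0, 0))) ((0 : ℂ), (0 : ℂ)) := by
    refine hasStrictFDerivAt_uncurry_coprod (f := G) (f₁ := f₁) (f₂ := f₂) ?_ ?_ ?_ ?_
    · filter_upwards [hev] with q hq
      have h3 : x + q.2 • w + q.1 • v ∈ U := by
        rwa [add_right_comm]
      have h1 := hasDerivAt_line hl h3
      have h2 : (fun s => G s q.2) = fun s => f (x + q.2 • w + s • v) := by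
        funext s
        show f (x + s • v + q.2 • w) = _
        rw [add_right_comm]
      rw [h2]
      have h4 := h1.hasFDerivAt
      have h5 : (Function.uncurry f₁) q =
          ContinuousLinearMap.toSpanSingleton ℂ (D f (x + q.2 • w + q.1 • v) v) := by
        show ContinuousLinearMap.toSpanSingleton ℂ (D f (x + q.1 • v + q.2 • w) v) = _
        rw [add_right_comm]
      change HasFDerivAt _ (Function.uncurry f₁ q) q.1
      rw [h5]
      exact h4
    · filter_upwards [hev] with q hq
      have h1 := hasDerivAt_line hl hq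
      exact h1.hasFDerivAt
    · have h1 := hD v
      exact (ContinuousLinearMap.toSpanSingletonCLE (𝕜 := ℂ) (E := ℂ)).continuous.continuousAt.comp h1
    · have h1 := hD w
      exact (ContinuousLinearMap.toSpanSingletonCLE (𝕜 := ℂ) (E := ℂ)).continuous.continuousAt.comp h1
  have hdiag : HasDerivAt (fun z : ℂ => (z, z)) ((1 : ℂ), (1 : ℂ)) 0 :=
    (hasDerivAt_id (0 : ℂ)).prodMk (hasDerivAt_id 0)
  have h6 := HasFDerivAt.comp_hasDerivAt (f := fun z : ℂ => (z, z)) (0 : ℂ) key.hasFDerivAt hdiag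
  have h7 : (Function.uncurry G) ∘ (fun z : ℂ => (z, z)) = fun z : ℂ => f (x + z • (v + w)) := by
    funext z
    show f (x + z • v + z • w) = _
    rw [smul_add, add_assoc]
  rw [h7] at h6
  have h8 := h6.deriv
  rw [D, h8]
  show (f₁ 0 0) 1 + (f₂ 0 0) 1 = _
  simp [f₁, f₂]

theorem D_smul {U : Set E} {f : E → ℂ}
    (hl : ∀ x ∈ U, ∀ v : E, DifferentiableAt ℂ (fun z : ℂ => f (x + z • v)) 0)
    {x : E} (hx : x ∈ U) (c : ℂ) (v : E) : D f x (c • v) = c * D f x v := by
  have h1 : HasDerivAt (fun w : ℂ => f (x + w • v)) (D f x v) (c * 0) := by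
    rw [mul_zero]
    exact (hl x hx v).hasDerivAt
  have h2 : HasDerivAt (fun z : ℂ => c * z) c 0 := by
    simpa using (hasDerivAt_id (0 : ℂ)).const_mul c
  have h3 := h1.comp (0 : ℂ) h2
  have h4 : (fun w : ℂ => f (x + w • v)) ∘ (fun z : ℂ => c * z) = fun z => f (x + z • (c • v)) := by
    funext z
    simp only [Function.comp]
    rw [mul_comm, smul_smul]
  rw [h4] at h3
  rw [D, h3.deriv, mul_comm]

end OM

open OM

section O

variable {E : Type*} [NormedAddCommGroup E] [NormedSpace ℂ E] [FiniteDimensional ℂ E]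

/-- Osgood's lemma, with the derivative -/
theorem OM.osgood_aux {U : Set E} (hU : IsOpen U) {f : E → ℂ} (hc : ContinuousOn f U)
    (hl : ∀ x ∈ U, ∀ v : E, DifferentiableAt ℂ (fun z : ℂ => f (x + z • v)) 0) {x : E}
    (hx : x ∈ U) : ∃ L : E →L[ℂ] ℂ, (∀ v, L v = D f x v) ∧ HasFDerivAt f L x := by
  classical
  let L : E → E →L[ℂ] ℂ := fun y =>
    if hy : y ∈ U then
      LinearMap.toContinuousLinearMap
        { toFun := D f y
          map_add' := D_add hU hc hl hy
          map_smul' := fun c v => D_smul hl hy c v }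
    else 0
  have hL : ∀ y ∈ U, ∀ v, L y v = D f y v := by
    intro y hy v
    simp [L, hy]
  have hLc : ContinuousOn L U := by
    rw [continuousOn_clm_apply]
    intro v y hy
    have h1 : ContinuousAt (fun p : E × E => D f p.1 p.2) (y, v) := continuousAt_D hU hc hl hy
    have h2 : ContinuousAt (fun z : E => D f z v) y :=
      ContinuousAt.comp (f := fun z : E => (z, v)) h1 (by fun_prop)
    exact h2.continuousWithinAt.congr (fun z hz => hL z hz v) (hL y hy v)
  refine ⟨L x, hL x hx, ?_⟩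
  rw [hasFDerivAt_iff_isLittleO_nhds_zero]
  rw [Asymptotics.isLittleO_iff]
  intro ε hε
  have h3 : ∀ᶠ y in 𝓝 x, ‖L y - L x‖ < ε := by
    have := (hLc.continuousAt (hU.mem_nhds hx)).eventually (ball_mem_nhds _ hε)
    simpa [ball, dist_eq_norm] using this
  have h4 : ∀ᶠ y in 𝓝 x, y ∈ U ∧ ‖L y - L x‖ < ε := (hU.eventually_mem hx).and h3
  obtain ⟨δ, hδ, hball⟩ := Metric.eventually_nhds_iff_ball.1 h4
  rw [Metric.eventually_nhds_iff_ball]
  refine ⟨δ, hδ, fun h hh => ?_⟩
  have hh' : ‖h‖ < δ := by simpa using hh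
  have hseg : ∀ z ∈ closedBall (0 : ℂ) 1, x + z • h ∈ ball x δ := by
    intro z hz
    rw [mem_closedBall_zero_iff] at hz
    rw [mem_ball, dist_eq_norm, add_sub_cancel_left, norm_smul]
    calc ‖z‖ * ‖h‖ ≤ 1 * ‖h‖ := by gcongr
      _ < δ := by simpa using hh'
  have hder : ∀ z ∈ closedBall (0 : ℂ) 1, HasDerivWithinAt (fun z : ℂ => f (x + z • h) - z * L x h)
      (D f (x + z • h) h - L x h) (closedBall (0 : ℂ) 1) z := by
    intro z hz
    have h5 := hasDerivAt_line hl (hball _ (hseg z hz)).1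
    have h6 : HasDerivAt (fun z : ℂ => z * L x h) (L x h) z := by
      simpa using (hasDerivAt_id z).mul_const (L x h)
    exact (h5.sub h6).hasDerivWithinAt
  have hbound : ∀ z ∈ closedBall (0 : ℂ) 1, ‖D f (x + z • h) h - L x h‖ ≤ ε * ‖h‖ := by
    intro z hz
    have h5 := hball _ (hseg z hz)
    rw [← hL _ h5.1 h, ← sub_apply]
    exact (ContinuousLinearMap.le_opNorm _ _).trans (by gcongr; exact h5.2.le)
  have h7 := (convex_closedBall (0 : ℂ) 1).norm_image_sub_le_of_norm_hasDerivWithin_le hder hbound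
    (x := 0) (y := 1) (by simp) (by simp)
  have h8 : f (x + h) - f x - (L x) h = f (x + h) - (L x) h - f x := by ring
  rw [h8]
  simpa using h7

/-- Osgood's lemma: a continuous function which is holomorphic along complex lines is holomorphic -/
theorem osgood {U : Set E} (hU : IsOpen U) {f : E → ℂ} (hc : ContinuousOn f U)
    (hl : ∀ x ∈ U, ∀ v : E, DifferentiableAt ℂ (fun z : ℂ => f (x + z • v)) 0) :
    DifferentiableOn ℂ f U := fun x hx => by
  obtain ⟨L, _, hL⟩ := osgood_aux hU hc hl hx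
  exact hL.differentiableAt.differentiableWithinAt

/-- one-variable parameter integrals over circles -/
theorem OM.line_circle {W : Set ℂ} (hW : IsOpen W) {H : ℂ → ℂ → ℂ} {c : ℂ} {R : ℝ}
    (hR : 0 ≤ R) (hc : ContinuousOn (Function.uncurry H) (sphere c R ×ˢ W))
    (hd : ∀ y ∈ sphere c R, DifferentiableOn ℂ (H y) W) {z₀ : ℂ} (hz : z₀ ∈ W) :
    DifferentiableAt ℂ (fun z => ∮ y in C(c, R), H y z) z₀ := by
  obtain ⟨ε, hε, hεW⟩ := Metric.isOpen_iff.1 hW z₀ hz
  set ρ : ℝ := ε / 3 with hρ
  have hρ0 : 0 < ρ := by positivity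
  have hsub : ∀ z ∈ closedBall z₀ ρ, closedBall z ρ ⊆ W := by
    intro z hz' w hw
    refine hεW ?_
    rw [mem_closedBall] at hz' hw
    rw [mem_ball]
    calc dist w z₀ ≤ dist w z + dist z z₀ := dist_triangle _ _ _
      _ ≤ ρ + ρ := add_le_add hw hz'
      _ < ε := by rw [hρ]; linarith
  have hsub2 : closedBall z₀ (2 * ρ) ⊆ W := by
    intro w hw
    refine hεW ?_
    rw [mem_closedBall] at hw
    rw [mem_ball]
    linarith
  have hcomp : IsCompact (sphere c R ×ˢ closedBall z₀ (2 * ρ)) :=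
    (isCompact_sphere c R).prod (isCompact_closedBall z₀ _)
  obtain ⟨M, hM⟩ := hcomp.exists_bound_of_continuousOn (hc.mono (prod_mono_right hsub2))
  have hcm : ∀ θ : ℝ, circleMap c R θ ∈ sphere c R := fun θ => circleMap_mem_sphere c hR θ
  have hFc : ContinuousOn (Function.uncurry fun (θ : ℝ) (z : ℂ) => H (circleMap c R θ) z)
      (univ ×ˢ W) := by
    refine hc.comp (f := fun q : ℝ × ℂ => (circleMap c R q.1, q.2)) ?_ ?_
    · exact (((continuous_circleMap c R).comp continuous_fst).prodMk continuous_snd).continuousOn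
    · intro q hq
      exact mk_mem_prod (hcm q.1) hq.2
  have hdc : Continuous fun θ : ℝ => deriv (circleMap c R) θ := by
    simp only [deriv_circleMap]
    exact (continuous_circleMap 0 R).mul continuous_const
  have hFcont : ∀ z ∈ W, Continuous fun θ : ℝ => deriv (circleMap c R) θ • H (circleMap c R θ) z := by
    intro z hzW
    have h1 : Continuous fun θ : ℝ => H (circleMap c R θ) z := by
      rw [← continuousOn_univ]
      refine hFc.comp (f := fun θ : ℝ => (θ, z)) (by fun_prop) ?_
      intro θ _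
      exact mk_mem_prod (mem_univ _) hzW
    exact hdc.smul h1
  have key := intervalIntegral.hasDerivAt_integral_of_dominated_loc_of_deriv_le
    (μ := MeasureTheory.volume) (a := 0) (b := 2 * Real.pi)
    (F := fun (z : ℂ) (θ : ℝ) => deriv (circleMap c R) θ • H (circleMap c R θ) z)
    (F' := fun (z : ℂ) (θ : ℝ) => deriv (circleMap c R) θ • deriv (H (circleMap c R θ)) z)
    (x₀ := z₀) (s := ball z₀ ρ) (bound := fun _ => |R| * (M / ρ)) (ball_mem_nhds _ hρ0)
    ?_ ?_ ?_ ?_ ?_ ?_
  · exact key.2.differentiableAt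
  · filter_upwards [hW.mem_nhds hz] with z hzW
    exact (hFcont z hzW).aestronglyMeasurable
  · exact (hFcont z₀ hz).intervalIntegrable _ _
  · have h1 : Continuous fun θ : ℝ => deriv (H (circleMap c R θ)) z₀ := by
      rw [continuous_iff_continuousAt]
      intro θ
      have h2 := OM.continuousWithinAt_deriv hW hFc (fun θ _ => hd _ (hcm θ)) (mem_univ θ) hz
      simpa [continuousWithinAt_univ] using h2
    have h3 := hdc.smul h1
    exact h3.aestronglyMeasurable
  · refine Eventually.of_forall fun θ _ z hz' => ?_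
    rw [norm_smul]
    refine mul_le_mul ?_ ?_ (norm_nonneg _) (abs_nonneg _)
    · simp [deriv_circleMap]
    · have hz'' : z ∈ closedBall z₀ ρ := ball_subset_closedBall hz'
      refine Complex.norm_deriv_le_of_forall_mem_sphere_norm_le hρ0 ?_ ?_
      · exact ((hd _ (hcm θ)).mono (hsub z hz'')).diffContOnCl_ball Subset.rfl
      · intro w hw
        refine hM (circleMap c R θ, w) (mk_mem_prod (hcm θ) ?_)
        rw [mem_closedBall] at hz'' ⊢
        rw [mem_sphere] at hw
        calc dist w z₀ ≤ dist w z + dist z z₀ := dist_triangle _ _ _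
          _ ≤ 2 * ρ := by linarith
  · exact intervalIntegrable_const
  · refine Eventually.of_forall fun θ _ z hz' => ?_
    have hzW : z ∈ W := hsub z (ball_subset_closedBall hz') (mem_closedBall_self hρ0.le)
    have h1 := (((hd _ (hcm θ)).differentiableAt (hW.mem_nhds hzW)).hasDerivAt).const_smul
      (deriv (circleMap c R) θ)
    exact h1

theorem OM.continuousOn_circle {E : Type*} [NormedAddCommGroup E] {U : Set E} {H : ℂ → E → ℂ} {c : ℂ} {R : ℝ}
    (hR : 0 ≤ R) (hc : ContinuousOn (Function.uncurry H) (sphere c R ×ˢ U)) :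
    ContinuousOn (fun x => ∮ y in C(c, R), H y x) U := by
  intro x₀ hx₀
  have hc' : ContinuousOn (Function.uncurry fun (x : E) (y : ℂ) => H y x) (U ×ˢ sphere c R) := by
    refine hc.comp (f := fun q : E × ℂ => (q.2, q.1)) (by fun_prop) ?_
    intro q hq
    exact mk_mem_prod hq.2 hq.1
  have hint : ∀ x ∈ U, CircleIntegrable (fun y => H y x) c R := by
    intro x hx
    refine ContinuousOn.circleIntegrable hR ?_
    refine hc.comp (f := fun y : ℂ => (y, x)) (by fun_prop) ?_
    intro y hy
    exact mk_mem_prod hy hx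
  rw [Metric.continuousWithinAt_iff']
  intro ε hε
  have hpos : 0 < ε / (2 * Real.pi * R + 1) := by positivity
  obtain ⟨v, hv, h⟩ := (isCompact_sphere c R).mem_uniformity_of_prod hc' hx₀
    (Metric.dist_mem_uniformity hpos)
  filter_upwards [hv, self_mem_nhdsWithin] with x hx hxU
  rw [dist_eq_norm, ← circleIntegral.integral_sub (hint x hxU) (hint x₀ hx₀)]
  have h1 := circleIntegral.norm_integral_le_of_norm_le_const (f := fun y => H y x - H y x₀)
    (c := c) (C := ε / (2 * Real.pi * R + 1)) hR (fun y hy => by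
      have := h x hx y hy
      simp only [Set.mem_ofPred_eq, dist_eq_norm] at this
      exact this.le)
  refine h1.trans_lt ?_
  have h2 : 0 ≤ 2 * Real.pi * R := by positivity
  rw [mul_div_assoc', div_lt_iff₀ (by positivity)]
  nlinarith

/-- parameter integrals over circles -/
theorem differentiableOn_circleIntegral {U : Set E} (hU : IsOpen U) {H : ℂ → E → ℂ} {c : ℂ} {R : ℝ}
    (hR : 0 ≤ R)
    (hc : ContinuousOn (Function.uncurry H) (sphere c R ×ˢ U))
    (hd : ∀ y ∈ sphere c R, DifferentiableOn ℂ (H y) U) :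
    DifferentiableOn ℂ (fun x => ∮ y in C(c, R), H y x) U := by
  refine osgood hU (OM.continuousOn_circle hR hc) fun x hx v => ?_
  have hcont : Continuous fun z : ℂ => x + z • v := by fun_prop
  refine OM.line_circle (H := fun y z => H y (x + z • v)) (hU.preimage hcont) hR ?_ ?_ ?_
  · refine hc.comp (f := fun q : ℂ × ℂ => (q.1, x + q.2 • v)) (by fun_prop) ?_
    intro q hq
    exact mk_mem_prod hq.1 hq.2
  · intro y hy
    refine (hd y hy).comp (f := fun z : ℂ => x + z • v) (by fun_prop) ?_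
    intro z hz
    exact hz
  · simpa using hx

theorem OM.differentiableOn_fderiv_apply {U : Set E} (hU : IsOpen U) {f : E → ℂ}
    (hf : DifferentiableOn ℂ f U) (v : E) : DifferentiableOn ℂ (fun x => fderiv ℂ f x v) U := by
  intro x₀ hx₀
  have hcont : Continuous fun q : E × ℂ => q.1 + q.2 • v := by fun_prop
  have hopen : IsOpen ((fun q : E × ℂ => q.1 + q.2 • v) ⁻¹' U) := hU.preimage hcont
  obtain ⟨V, W, hV, hW, hxV, h0W, hsub⟩ := isOpen_prod_iff.1 hopen x₀ 0 (by simpa using hx₀)
  obtain ⟨ε, hε, hεW⟩ := Metric.isOpen_iff.1 hW 0 h0W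
  have hρW : closedBall (0 : ℂ) (ε / 2) ⊆ W :=
    (closedBall_subset_ball (by linarith)).trans hεW
  have hVU : V ⊆ U := fun x hx => by
    have : x + (0 : ℂ) • v ∈ U := hsub (mk_mem_prod hx h0W)
    simpa using this
  have key : DifferentiableOn ℂ (fun x => ∮ y in C((0 : ℂ), ε / 2),
      ((y - 0) ^ 2)⁻¹ • f (x + y • v)) V := by
    refine differentiableOn_circleIntegral (H := fun y x => ((y - 0) ^ 2)⁻¹ • f (x + y • v)) hV
      (by positivity) ?_ ?_
    · have hy0 : ∀ q ∈ sphere (0 : ℂ) (ε / 2) ×ˢ V, (q.1 - 0) ^ 2 ≠ 0 := by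
        intro q hq
        have : ‖q.1‖ = ε / 2 := by simpa using hq.1
        have h1 : q.1 ≠ 0 := by
          intro h0
          rw [h0, norm_zero] at this
          linarith
        simpa using h1
      refine ContinuousOn.smul (f := fun q : ℂ × E => ((q.1 - 0) ^ 2)⁻¹)
        (g := fun q : ℂ × E => f (q.2 + q.1 • v)) ?_ ?_
      · refine ContinuousOn.inv₀ (by fun_prop) hy0
      · refine hf.continuousOn.comp (f := fun q : ℂ × E => q.2 + q.1 • v) (by fun_prop) ?_
        intro q hq
        exact hsub (mk_mem_prod hq.2 (hρW (sphere_subset_closedBall hq.1)))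
    · intro y hy
      have h1 : DifferentiableOn ℂ (fun x => f (x + y • v)) V := by
        refine hf.comp (f := fun x : E => x + y • v) (by fun_prop) ?_
        intro x hx
        exact hsub (mk_mem_prod hx (hρW (sphere_subset_closedBall hy)))
      have h2 := h1.const_smul (((y - 0) ^ 2)⁻¹)
      exact h2
  have hform : ∀ x ∈ V, fderiv ℂ f x v = (2 * Real.pi * Complex.I : ℂ)⁻¹ •
      ∮ y in C((0 : ℂ), ε / 2), ((y - 0) ^ 2)⁻¹ • f (x + y • v) := by
    intro x hx
    have h1 : DifferentiableOn ℂ (fun y : ℂ => f (x + y • v)) W := by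
      refine hf.comp (f := fun y : ℂ => x + y • v) (by fun_prop) ?_
      intro y hy
      exact hsub (mk_mem_prod hx hy)
    rw [Complex.two_pi_I_inv_smul_circleIntegral_sub_sq_inv_smul_of_differentiable hW hρW h1
      (mem_ball_self (by positivity))]
    have h2 : HasFDerivAt f (fderiv ℂ f x) (x + (0 : ℂ) • v) := by
      rw [zero_smul, add_zero]
      exact (hf.differentiableAt (hU.mem_nhds (hVU hx))).hasFDerivAt
    have h3 : HasDerivAt (fun y : ℂ => x + y • v) v 0 := by
      simpa using ((hasDerivAt_id (0 : ℂ)).smul_const v).const_add x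
    exact (HasFDerivAt.comp_hasDerivAt (f := fun y : ℂ => x + y • v) (0 : ℂ) h2 h3).deriv.symm
  have h4 : DifferentiableAt ℂ (fun x => fderiv ℂ f x v) x₀ := by
    have h5 := (key.differentiableAt (hV.mem_nhds hxV)).const_smul
      ((2 * Real.pi * Complex.I : ℂ)⁻¹)
    refine h5.congr_of_eventuallyEq ?_
    filter_upwards [hV.mem_nhds hxV] with x hx
    exact hform x hx
  exact h4.differentiableWithinAt

theorem contDiffOn_of_differentiableOn {U : Set E} (hU : IsOpen U) {f : E → ℂ}
    (hf : DifferentiableOn ℂ f U) : ContDiffOn ℂ ∞ f U := by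
  rw [contDiffOn_infty]
  intro n
  induction n generalizing f with
  | zero =>
    rw [Nat.cast_zero, contDiffOn_zero]
    exact hf.continuousOn
  | succ n ih =>
    rw [Nat.cast_add, Nat.cast_one, contDiffOn_succ_iff_fderiv_of_isOpen hU]
    refine ⟨hf, ?_, ?_⟩
    · intro h
      exact absurd h (by simp)
    · rw [contDiffOn_clm_apply]
      intro v
      exact ih (OM.differentiableOn_fderiv_apply hU hf v)

/-- locally normally convergent series -/
theorem differentiableOn_tsum' {ι : Type*} {U : Set E} (hU : IsOpen U) {F : ι → E → ℂ}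
    (hF : ∀ i, DifferentiableOn ℂ (F i) U)
    (hb : ∀ x ∈ U, ∃ V ∈ 𝓝 x, ∃ u : ι → ℝ, Summable u ∧ ∀ i, ∀ y ∈ V, ‖F i y‖ ≤ u i) :
    DifferentiableOn ℂ (fun x => ∑' i, F i x) U := by
  -- open neighbourhoods contained in `U`
  have hb' : ∀ x ∈ U, ∃ V : Set E, IsOpen V ∧ x ∈ V ∧ V ⊆ U ∧
      ∃ u : ι → ℝ, Summable u ∧ ∀ i, ∀ y ∈ V, ‖F i y‖ ≤ u i := by
    intro x hx
    obtain ⟨V, hV, u, hu, h⟩ := hb x hx
    obtain ⟨V', hV', hV'o, hxV'⟩ := _root_.mem_nhds_iff.1 (inter_mem hV (hU.mem_nhds hx))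
    exact ⟨V', hV'o, hxV', fun y hy => (hV' hy).2, u, hu, fun i y hy => h i y (hV' hy).1⟩
  refine osgood hU ?_ ?_
  · intro x hx
    obtain ⟨V, hV, hxV, hVU, u, hu, h⟩ := hb' x hx
    have h1 : ContinuousOn (fun x => ∑' i, F i x) V :=
      continuousOn_tsum (fun i => ((hF i).mono hVU).continuousOn) hu h
    exact (h1.continuousAt (hV.mem_nhds hxV)).continuousWithinAt
  · intro x hx v
    obtain ⟨V, hV, hxV, hVU, u, hu, h⟩ := hb' x hx
    have hcont : Continuous fun z : ℂ => x + z • v := by fun_prop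
    have hW : IsOpen ((fun z : ℂ => x + z • v) ⁻¹' V) := hV.preimage hcont
    have h1 := Complex.differentiableOn_tsum_of_summable_norm (F := fun i (z : ℂ) => F i (x + z • v))
      hu (fun i => by
        refine ((hF i).mono hVU).comp (f := fun z : ℂ => x + z • v) (by fun_prop) ?_
        intro z hz
        exact hz) hW (fun i z hz => h i _ hz)
    refine h1.differentiableAt (hW.mem_nhds ?_)
    simpa using hxV

end O

end Pool.Agent.helper96.Zd
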